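import Pool.Agent.W744.GL.Stm

set_option autoImplicit false

open Set Filter Topology

namespace Pool.Agent.W381.GL.FLOW

open Pool.Agent.W744.GL

lemma mem_sh {U : Ultrafilter ℤ} {k : ℤ} {A : Set ℤ} :
    A ∈ sh U k ↔ {a : ℤ | a + k ∈ A} ∈ U := Iff.rfl

lemma sh_zero (U : Ultrafilter ℤ) : sh U 0 = U := by
  refine Ultrafilter.ext fun A => ?_
  rw [mem_sh]
  simp

lemma sh_sh (U : Ultrafilter ℤ) (j k : ℤ) : sh (sh U j) k = sh U (j + k) := by
  refine Ultrafilter.ext fun A => ?_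
  rw [mem_sh, mem_sh, mem_sh]
  have : {a : ℤ | a + j ∈ {a : ℤ | a + k ∈ A}} = {a : ℤ | a + (j + k) ∈ A} := by
    ext a
    show a + j + k ∈ A ↔ a + (j + k) ∈ A
    rw [add_assoc]
  rw [this]

lemma cont_sh (k : ℤ) : Continuous fun U : Ultrafilter ℤ => sh U k := by
  rw [ultrafilterBasis_is_basis.continuous_iff]
  rintro _ ⟨A, rfl⟩
  exact ultrafilter_isOpen_basic {a : ℤ | a + k ∈ A}

/-- closed nonempty invariant sets -/
def Inv : Set (Set (Ultrafilter ℤ)) :=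
  {Y | IsClosed Y ∧ Y.Nonempty ∧ ∀ U ∈ Y, ∀ k : ℤ, sh U k ∈ Y}

lemma exists_min : ∃ Y, Minimal (· ∈ Inv) Y := by
  refine zorn_superset Inv fun c hc hchain => ?_
  rcases c.eq_empty_or_nonempty with rfl | hne
  · refine ⟨univ, ⟨isClosed_univ, ⟨pure 0, mem_univ _⟩, fun _ _ _ => mem_univ _⟩, fun s hs => ?_⟩
    exact absurd hs (notMem_empty s)
  · refine ⟨⋂₀ c, ⟨isClosed_sInter fun s hs => (hc hs).1, ?_, fun U hU k => ?_⟩,
      fun s hs => sInter_subset_of_mem hs⟩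
    · have : Nonempty c := hne.to_subtype
      refine IsCompact.nonempty_sInter_of_directed_nonempty_isCompact_isClosed ?_
        (fun s hs => (hc hs).2.1) (fun s hs => (hc hs).1.isCompact) (fun s hs => (hc hs).1)
      intro s hs t ht
      rcases hchain.total hs ht with h | h
      · exact ⟨s, hs, subset_rfl, h⟩
      · exact ⟨t, ht, h, subset_rfl⟩
    · intro s hs
      exact (hc hs).2.2 U (hU s hs) k

lemma orbit_mem (V : Ultrafilter ℤ) : closure (range (sh V)) ∈ Inv := by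
  refine ⟨isClosed_closure, ⟨sh V 0, subset_closure ⟨0, rfl⟩⟩, fun W hW k => ?_⟩
  refine map_mem_closure (f := fun W => sh W k) (cont_sh k) hW ?_
  rintro _ ⟨j, rfl⟩
  exact ⟨j + k, (sh_sh V j k).symm⟩

/-- the integers `(4 ^ j - 1) / 3` -/
def nj (j : ℕ) : ℤ := ∑ i ∈ Finset.range j, (4 : ℤ) ^ i

lemma nj_eq (j : ℕ) : 3 * nj j + 1 = 4 ^ j := by
  have h := geom_sum_mul (4 : ℤ) j
  unfold nj
  linarith

theorem main : S_FLOW := by
  obtain ⟨Y, hY, hmin⟩ := exists_min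
  obtain ⟨hYc, ⟨U, hU⟩, hYi⟩ := hY
  have hsub : ∀ V ∈ Y, closure (range (sh V)) ⊆ Y := fun V hV =>
    closure_minimal (by rintro _ ⟨k, rfl⟩; exact hYi V hV k) hYc
  have hall : ∀ V ∈ Y, Y ⊆ closure (range (sh V)) := fun V hV =>
    hmin (orbit_mem V) (hsub V hV)
  -- the limit
  let H : Ultrafilter ℕ := Filter.hyperfilter ℕ
  obtain ⟨V, -, hV⟩ := isCompact_univ.ultrafilter_le_nhds
    (H.map fun j => sh U (nj j)) (by simp)
  have hlim : Tendsto (fun j => sh U (nj j)) (H : Filter ℕ) (𝓝 V) := hV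
  have hVcl : V ∈ closure (range (sh U)) :=
    mem_closure_of_tendsto hlim (Eventually.of_forall fun j => ⟨nj j, rfl⟩)
  have hVY : V ∈ Y := hsub U hU hVcl
  refine ⟨U, V, hVcl, hall V hVY hU, fun k hk => ?_⟩
  -- residue classes
  obtain ⟨s, hs⟩ : ∃ s : ℕ, (3 * k + 1).natAbs < 2 ^ s :=
    ⟨(3 * k + 1).natAbs, Nat.lt_two_pow_self⟩
  have hNZ : NeZero (2 ^ s) := ⟨by positivity⟩
  obtain ⟨u, hu⟩ := Ultrafilter.eq_pure_of_finite (U.map fun a : ℤ => (a : ZMod (2 ^ s)))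
  have hA : {a : ℤ | (a : ZMod (2 ^ s)) = u} ∈ U := by
    have h1 : {u} ∈ U.map fun a : ℤ => (a : ZMod (2 ^ s)) := by
      rw [hu, Ultrafilter.mem_pure]
      exact rfl
    exact h1
  have hB : {a : ℤ | (a : ZMod (2 ^ s)) = u + k} ∈ V := by
    rw [hk, mem_sh]
    filter_upwards [hA] with a ha
    show ((a + k : ℤ) : ZMod (2 ^ s)) = u + k
    rw [Int.cast_add, show (a : ZMod (2 ^ s)) = u from ha]
  have hev : ∀ᶠ j in (H : Filter ℕ), {a : ℤ | (a : ZMod (2 ^ s)) = u + k} ∈ sh U (nj j) :=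
    hlim.eventually ((ultrafilter_isOpen_basic _).mem_nhds hB)
  have hcof : ∀ᶠ j in (H : Filter ℕ), s ≤ j := by
    have h1 : (H : Filter ℕ) ≤ atTop := Nat.hyperfilter_le_atTop
    exact h1 (eventually_ge_atTop s)
  obtain ⟨j, hj1, hj2⟩ := (hev.and hcof).exists
  rw [mem_sh] at hj1
  obtain ⟨a, ha1, ha2⟩ := U.nonempty_of_mem (inter_mem hj1 hA)
  have h2 : ((a + nj j : ℤ) : ZMod (2 ^ s)) = u + k := ha1
  have h3 : (a : ZMod (2 ^ s)) = u := ha2
  rw [Int.cast_add, h3] at h2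
  have h4 : ((nj j : ℤ) : ZMod (2 ^ s)) = k := add_left_cancel h2
  have h5 : ((3 * k + 1 : ℤ) : ZMod (2 ^ s)) = 0 := by
    have h6 : ((3 * nj j + 1 : ℤ) : ZMod (2 ^ s)) = ((4 ^ j : ℤ) : ZMod (2 ^ s)) := by
      rw [nj_eq]
    have h7 : ((4 ^ j : ℤ) : ZMod (2 ^ s)) = 0 := by
      rw [ZMod.intCast_zmod_eq_zero_iff_dvd]
      have h8 : ((2 ^ s : ℕ) : ℤ) ∣ (2 : ℤ) ^ (2 * j) := by
        push_cast
        exact pow_dvd_pow 2 (by omega)
      have h9 : (4 : ℤ) ^ j = 2 ^ (2 * j) := by rw [pow_mul]; norm_num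
      rw [h9]
      exact h8
    rw [h7] at h6
    push_cast at h6 ⊢
    rw [h4] at h6
    exact h6
  rw [ZMod.intCast_zmod_eq_zero_iff_dvd] at h5
  have h10 : 3 * k + 1 = 0 := by
    by_contra hne
    have h11 : (2 ^ s : ℕ) ∣ (3 * k + 1).natAbs := Int.natCast_dvd.1 h5
    have h12 := Nat.le_of_dvd (Int.natAbs_pos.2 hne) h11
    omega
  omega

end Pool.Agent.W381.GL.FLOW
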